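import Pool.Agent.Y731.EU.Neg

/-!
# Every Euclidean form over `ℤ` plus any number of squares is Euclidean over `ℤ[1/2]`

Let `R = ℤ_T` be the Hasse domain of the rational numbers which are integral at all primes outside
the finite set `T`. If `2 ∈ T`, then for EVERY positive definite Euclidean quadratic form `f` over `ℤ`
(Nebe: there are 70 of them) and EVERY `n` the form `f + x_1 ^ 2 + ... + x_n ^ 2` is Euclidean over
`R`; in particular so are all sums of squares. If `2 ∉ T`, then a sum of `n` squares is not Euclidean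
over `R` for any `n > 0` divisible by `4`. So all sums of squares are Euclidean over `R` if and only if
`2 ∈ T`.

The definitions of the ring `SInt T`, the norm, forms and their properties are those of the starting
file `SumsOfSquaresEuclidean`, which has the sums of `2 ^ j - 1` squares.
-/

set_option autoImplicit false

namespace Pool.Agent.Results.MP_23f460_nt.AllSumsOfSquares

open SumsOfSquaresEuclidean

/-- The form over `R` with the integer matrix `B`: `∑ B i j * x i * x j`. -/
def intForm (R : Subring ℚ) {m : ℕ} (B : Matrix (Fin m) (Fin m) ℤ) : Form R :=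
  ⟨m, B.map (Int.castRingHom R)⟩

/-- The form `∑ B i j * x i * x j` is positive definite. -/
def PosDef {m : ℕ} (B : Matrix (Fin m) (Fin m) ℤ) : Prop :=
  ∀ x : Fin m → ℚ, x ≠ 0 → 0 < ∑ i, ∑ j, (B i j : ℚ) * x i * x j

/-- The matrix of the orthogonal sum of the form with matrix `B` and `n` squares. -/
def addSquares {m : ℕ} (B : Matrix (Fin m) (Fin m) ℤ) (n : ℕ) :
    Matrix (Fin (m + n)) (Fin (m + n)) ℤ :=
  Matrix.reindex finSumFinEquiv finSumFinEquiv (Matrix.fromBlocks B 0 0 1)

/-- **Negative answer to Q1, for all sums of squares and all Euclidean forms over `ℤ`.** -/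
theorem result (T : Finset ℕ) :
    -- every positive definite Euclidean form over `ℤ` plus any number of squares
    (2 ∈ T → ∀ (m : ℕ) (B : Matrix (Fin m) (Fin m) ℤ), PosDef B →
      (intForm (SInt ∅) B).Euclidean → ∀ n : ℕ,
        (intForm (SInt T) (addSquares B n)).Nondegenerate ∧
        (intForm (SInt T) (addSquares B n)).Anisotropic ∧
        (intForm (SInt T) (addSquares B n)).Euclidean) ∧
    -- sums of squares
    ((∀ n : ℕ, 1 ≤ n → (sumSq (SInt T) n).Euclidean) ↔ 2 ∈ T) ∧
    (2 ∉ T → ∀ n : ℕ, 0 < n → 4 ∣ n → ¬ (sumSq (SInt T) n).Euclidean) ∧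
    -- infinitely many classes, in every number of variables
    (2 ∈ T → ∃ F : ℕ → Form (SInt T), (∀ k, (F k).n = k + 1 ∧ (F k).Nondegenerate ∧
      (F k).Anisotropic ∧ (F k).Euclidean) ∧ ∀ k l, k ≠ l → ¬ Form.Isomorphic (F k) (F l)) := by
  have hneg : 2 ∉ T → ∀ n : ℕ, 0 < n → 4 ∣ n → ¬ (sumSq (SInt T) n).Euclidean :=
    fun hT n hn h4 => Y731.EU.not_euclidean hT hn h4
  refine ⟨fun hT m B hB hE n => ?_, ⟨fun h => ?_, fun hT n _ => Y731.EU.euclidean_sumSq' hT n⟩,
    hneg, fun hT => ⟨fun k => sumSq (SInt T) (k + 1), fun k => ⟨rfl, nondegenerate_sumSq _ _,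
      anisotropic_sumSq _ _, Y731.EU.euclidean_sumSq' hT _⟩, ?_⟩⟩
  · have hB' : Y731.EU.PosDef B := hB
    have h1 := Y731.EU.nondeg_of_posDef (R := SInt T) (Y731.EU.posDef_addSquares hB' n)
    exact ⟨h1.1, h1.2, Y731.EU.euclidean_addSquares hT hB' hE n⟩
  · by_contra hT
    exact hneg hT 4 (by norm_num) (dvd_refl 4) (h 4 (by norm_num))
  · rintro k l hkl ⟨h1, -⟩
    apply hkl
    change l + 1 = k + 1 at h1
    omega

end Pool.Agent.Results.MP_23f460_nt.AllSumsOfSquares
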